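import Mathlib

open Set

namespace Pool.Agent.Results.MP_c24244_an.OctagonCounterexample

/-- Property beta with constant `ρ` for a real normed space `Y`: an index set, unit vectors
`y α`, norm one functionals `f α` with `f α (y α) = 1`, `|f α (y γ)| ≤ ρ` for `α ≠ γ`, and
`‖v‖ = sup_α |f α v|` for every `v`. -/
def PropertyBeta (Y : Type) [NormedAddCommGroup Y] [NormedSpace ℝ Y] (ρ : ℝ) : Prop :=
  ∃ (Λ : Type) (y : Λ → Y) (f : Λ → (Y →L[ℝ] ℝ)),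
    (∀ α, ‖y α‖ = 1) ∧ (∀ α, ‖f α‖ = 1) ∧ (∀ α, f α (y α) = 1) ∧
    (∀ α γ, α ≠ γ → |f α (y γ)| ≤ ρ) ∧
    (∀ v : Y, IsLUB (Set.range fun α => |f α v|) ‖v‖)

/-- The set `Π^S_ε(X, Y)`. -/
def nearPairs (X Y : Type) [NormedAddCommGroup X] [NormedSpace ℝ X]
    [NormedAddCommGroup Y] [NormedSpace ℝ Y] (ε : ℝ) : Set (X × (X →L[ℝ] Y)) :=
  {p | ‖p.1‖ = 1 ∧ ‖p.2‖ = 1 ∧ 1 - ε < ‖p.2 p.1‖}

/-- The set `Π(X, Y)`. -/
def attainingPairs (X Y : Type) [NormedAddCommGroup X] [NormedSpace ℝ X]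
    [NormedAddCommGroup Y] [NormedSpace ℝ Y] : Set (X × (X →L[ℝ] Y)) :=
  {q | ‖q.1‖ = 1 ∧ ‖q.2‖ = 1 ∧ ‖q.2 q.1‖ = 1}

/-- The spherical Bishop-Phelps-Bollobas modulus, with values in `[0, ∞]`. -/
noncomputable def sphericalModulus (X Y : Type) [NormedAddCommGroup X] [NormedSpace ℝ X]
    [NormedAddCommGroup Y] [NormedSpace ℝ Y] (ε : ℝ) : ENNReal :=
  ⨆ p ∈ nearPairs X Y ε, ⨅ q ∈ attainingPairs X Y,
    ENNReal.ofReal (max ‖p.1 - q.1‖ ‖p.2 - q.2‖)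

/-- The octagonal plane, as a subspace of `ℝ⁴` with the sup norm. -/
def oct : Submodule ℝ (Fin 4 → ℝ) where
  carrier := {w | 7 * w 2 = 5 * (w 0 + w 1) ∧ 7 * w 3 = 5 * (w 0 - w 1)}
  add_mem' := by
    rintro a b ⟨h1, h2⟩ ⟨h3, h4⟩
    constructor
    · simp only [Pi.add_apply]; linarith
    · simp only [Pi.add_apply]; linarith
  zero_mem' := by
    constructor <;> simp
  smul_mem' := by
    rintro c a ⟨h1, h2⟩
    constructor
    · simp only [Pi.smul_apply, smul_eq_mul]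
      linear_combination c * h1
    · simp only [Pi.smul_apply, smul_eq_mul]
      linear_combination c * h2

/-- The point `(a, b)` of the octagonal plane. -/
noncomputable def pt (a b : ℝ) : oct :=
  ⟨![a, b, 5 / 7 * (a + b), 5 / 7 * (a - b)], by
    constructor
    · simp; ring
    · simp; ring⟩

lemma pt0 (a b : ℝ) : (pt a b).1 0 = a := by simp [pt]
lemma pt1 (a b : ℝ) : (pt a b).1 1 = b := by simp [pt]
lemma pt2 (a b : ℝ) : (pt a b).1 2 = 5 / 7 * (a + b) := by simp [pt]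
lemma pt3 (a b : ℝ) : (pt a b).1 3 = 5 / 7 * (a - b) := by simp [pt]

lemma comp_le (v : oct) (i : Fin 4) : |v.1 i| ≤ ‖v‖ := by
  have := norm_le_pi_norm v.1 i
  simpa [Real.norm_eq_abs] using this

lemma norm_le_of (v : oct) (r : ℝ) (hr : 0 ≤ r) (h : ∀ i, |v.1 i| ≤ r) : ‖v‖ ≤ r := by
  have : ‖v.1‖ ≤ r := by
    rw [pi_norm_le_iff_of_nonneg hr]
    intro i
    rw [Real.norm_eq_abs]
    exact h i
  exact this

lemma norm_pt_le (a b r : ℝ) (hr : 0 ≤ r) (h0 : |a| ≤ r) (h1 : |b| ≤ r)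
    (h2 : |5 / 7 * (a + b)| ≤ r) (h3 : |5 / 7 * (a - b)| ≤ r) : ‖pt a b‖ ≤ r := by
  apply norm_le_of _ _ hr
  intro i
  fin_cases i
  · simpa [pt0] using h0
  · simpa [pt1] using h1
  · simpa [pt2] using h2
  · simpa [pt3] using h3

/-- The four norming functionals. -/
noncomputable def fn (i : Fin 4) : oct →L[ℝ] ℝ :=
  (ContinuousLinearMap.proj (R := ℝ) (φ := fun _ : Fin 4 => ℝ) i).comp oct.subtypeL

lemma fn_apply (i : Fin 4) (v : oct) : fn i v = v.1 i := rfl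

/-- The four norming vectors. -/
noncomputable def yv : Fin 4 → oct := ![pt 1 0, pt 0 1, pt (7/10) (7/10), pt (7/10) (-(7/10))]

lemma norm_yv_le (i : Fin 4) : ‖yv i‖ ≤ 1 := by
  fin_cases i
  · show ‖pt 1 0‖ ≤ 1
    apply norm_pt_le <;> norm_num [abs_le]
  · show ‖pt 0 1‖ ≤ 1
    apply norm_pt_le <;> norm_num [abs_le]
  · show ‖pt (7/10) (7/10)‖ ≤ 1
    apply norm_pt_le <;> norm_num [abs_le]
  · show ‖pt (7/10) (-(7/10))‖ ≤ 1
    apply norm_pt_le <;> norm_num [abs_le]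

lemma fn_yv (i : Fin 4) : fn i (yv i) = 1 := by
  fin_cases i
  · show (pt 1 0).1 0 = 1
    rw [pt0]
  · show (pt 0 1).1 1 = 1
    rw [pt1]
  · show (pt (7/10) (7/10)).1 2 = 1
    rw [pt2]; norm_num
  · show (pt (7/10) (-(7/10))).1 3 = 1
    rw [pt3]; norm_num

lemma norm_fn (i : Fin 4) : ‖fn i‖ = 1 := by
  apply le_antisymm
  · apply ContinuousLinearMap.opNorm_le_bound _ zero_le_one
    intro v
    rw [one_mul, Real.norm_eq_abs, fn_apply]
    exact comp_le v i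
  · have h1 := (fn i).le_opNorm (yv i)
    rw [fn_yv] at h1
    have h2 := norm_yv_le i
    have h3 := norm_nonneg (fn i)
    rw [norm_one] at h1
    nlinarith

lemma norm_yv (i : Fin 4) : ‖yv i‖ = 1 := by
  apply le_antisymm (norm_yv_le i)
  have h1 := (fn i).le_opNorm (yv i)
  rw [fn_yv, norm_fn, norm_one, one_mul] at h1
  exact h1

lemma beta_oct : PropertyBeta oct (5 / 7) := by
  refine ⟨Fin 4, yv, fn, norm_yv, norm_fn, fn_yv, ?_, ?_⟩
  · intro i j hij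
    rw [fn_apply]
    fin_cases i <;> fin_cases j <;>
      first
      | exact absurd rfl hij
      | (simp [yv, pt0, pt1, pt2, pt3, abs_le]; try norm_num)
  · intro v
    constructor
    · rintro _ ⟨i, rfl⟩
      exact comp_le v i
    · intro b hb
      have h0 : |fn 0 v| ≤ b := hb ⟨0, rfl⟩
      apply norm_le_of v b ((abs_nonneg _).trans h0)
      intro i
      exact hb ⟨i, rfl⟩

/-- `ℓ₁⁵`. -/
abbrev L15 : Type := PiLp 1 (fun _ : Fin 5 => ℝ)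

/-- The images of the unit vectors. -/
noncomputable def tv : Fin 5 → oct :=
  ![pt 1 0, pt (7/10) (7/10), pt (-(7/10)) (7/10), pt (-1) 0, pt 0 (-1)]

lemma norm_tv_le (j : Fin 5) : ‖tv j‖ ≤ 1 := by
  fin_cases j
  · show ‖pt 1 0‖ ≤ 1
    apply norm_pt_le <;> norm_num [abs_le]
  · show ‖pt (7/10) (7/10)‖ ≤ 1
    apply norm_pt_le <;> norm_num [abs_le]
  · show ‖pt (-(7/10)) (7/10)‖ ≤ 1
    apply norm_pt_le <;> norm_num [abs_le]
  · show ‖pt (-1) 0‖ ≤ 1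
    apply norm_pt_le <;> norm_num [abs_le]
  · show ‖pt 0 (-1)‖ ≤ 1
    apply norm_pt_le <;> norm_num [abs_le]

/-- The operator `T`. -/
noncomputable def T : L15 →L[ℝ] oct :=
  ∑ j, (PiLp.proj (𝕜 := ℝ) 1 (fun _ : Fin 5 => ℝ) j).smulRight (tv j)

lemma T_apply (x : L15) : T x = ∑ j, x j • tv j := by
  simp [T]

lemma T_single (j : Fin 5) : T (PiLp.single 1 j 1) = tv j := by
  rw [T_apply]
  simp [PiLp.single_apply]

lemma norm_T_le : ‖T‖ ≤ 1 := by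
  apply ContinuousLinearMap.opNorm_le_bound _ zero_le_one
  intro x
  rw [one_mul, T_apply, PiLp.norm_eq_of_L1]
  refine (norm_sum_le _ _).trans (Finset.sum_le_sum fun j _ => ?_)
  rw [norm_smul]
  calc ‖x j‖ * ‖tv j‖ ≤ ‖x j‖ * 1 :=
        mul_le_mul_of_nonneg_left (norm_tv_le j) (norm_nonneg _)
    _ = ‖x j‖ := mul_one _

lemma norm_T : ‖T‖ = 1 := by
  apply le_antisymm norm_T_le
  have h1 := T.le_opNorm (PiLp.single 1 0 1)
  rw [T_single, PiLp.norm_single, norm_one, mul_one] at h1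
  have h2 : |(tv 0).1 0| ≤ ‖tv 0‖ := comp_le _ _
  have h3 : (tv 0).1 0 = 1 := by
    show (pt 1 0).1 0 = 1
    rw [pt0]
  rw [h3, abs_one] at h2
  linarith

/-- The point `x`. -/
noncomputable def x0 : L15 := WithLp.toLp 1 (fun _ => (1 / 5 : ℝ))

lemma x0_apply (j : Fin 5) : x0 j = 1 / 5 := rfl

lemma norm_x0 : ‖x0‖ = 1 := by
  rw [PiLp.norm_eq_of_L1]
  simp only [x0_apply]
  simp
  try norm_num

lemma norm_T_x0 : (2 : ℝ) / 25 ≤ ‖T x0‖ := by
  have h1 : |(T x0).1 1| ≤ ‖T x0‖ := comp_le _ _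
  have h2 : (T x0).1 1 = 2 / 25 := by
    rw [T_apply]
    simp only [x0_apply, Fin.sum_univ_five]
    simp [tv, pt1]
    norm_num
  rw [h2] at h1
  refine le_trans ?_ h1
  exact le_abs_self _

lemma mem_near {ε : ℝ} (hε : 23 / 25 < ε) : (x0, T) ∈ nearPairs L15 oct ε := by
  refine ⟨norm_x0, norm_T, ?_⟩
  have := norm_T_x0
  show 1 - ε < ‖T x0‖
  linarith

/-- The value of the `i`-th norming functional at a vector of norm less than one in all
coordinates. -/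
lemma exists_coord (v : oct) (hv : ‖v‖ = 1) : ∃ i, |v.1 i| = 1 := by
  by_contra hne
  push Not at hne
  have h1 : ∀ i, |v.1 i| < 1 := fun i =>
    lt_of_le_of_ne ((comp_le v i).trans hv.le) (hne i)
  have h2 : ‖v.1‖ < 1 := by
    rw [pi_norm_lt_iff zero_lt_one]
    intro i
    rw [Real.norm_eq_abs]
    exact h1 i
  have h3 : ‖v.1‖ = 1 := hv
  linarith

lemma sum_single (z : L15) : z = ∑ j, z j • (PiLp.single 1 j 1 : L15) := by
  ext i
  simp [Pi.single_apply]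

lemma main_bound (z : L15) (F : L15 →L[ℝ] oct) (hz : ‖z‖ = 1) (hF : ‖F‖ = 1)
    (hFz : ‖F z‖ = 1) : 11 / 10 ≤ max ‖x0 - z‖ ‖T - F‖ := by
  by_contra hlt
  rw [not_le, max_lt_iff] at hlt
  obtain ⟨h1, h2⟩ := hlt
  obtain ⟨v, hvdef⟩ : ∃ v : Fin 5 → oct, ∀ j, v j = F (PiLp.single 1 j 1) :=
    ⟨fun j => F (PiLp.single 1 j 1), fun _ => rfl⟩
  have hvn : ∀ j, ‖v j‖ ≤ 1 := by
    intro j
    rw [hvdef]
    have := F.le_opNorm (PiLp.single 1 j 1)
    rwa [hF, PiLp.norm_single, norm_one, mul_one] at this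
  have hv : ∀ j i, |(v j).1 i| ≤ 1 := fun j i => (comp_le _ _).trans (hvn j)
  have hdn : ∀ j, ‖tv j - v j‖ < 11 / 10 := by
    intro j
    have := (T - F).le_opNorm (PiLp.single 1 j 1)
    rw [PiLp.norm_single, norm_one, mul_one, sub_apply, T_single,
      ← hvdef] at this
    exact this.trans_lt h2
  have hd : ∀ j i, |(tv j).1 i - (v j).1 i| < 11 / 10 := fun j i =>
    (comp_le (tv j - v j) i).trans_lt (hdn j)
  have hrel : ∀ j, 7 * (v j).1 2 = 5 * ((v j).1 0 + (v j).1 1) ∧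
      7 * (v j).1 3 = 5 * ((v j).1 0 - (v j).1 1) := fun j => (v j).2
  have hsum : F z = ∑ j, z j • v j := by
    conv_lhs => rw [sum_single z]
    rw [map_sum]
    exact Finset.sum_congr rfl fun j _ => by rw [map_smul, hvdef]
  have hzs : ∑ j, |z j| = 1 := by
    rw [← hz, PiLp.norm_eq_of_L1]
    exact Finset.sum_congr rfl fun j _ => (Real.norm_eq_abs _).symm
  have hxs : ∑ j, |1 / 5 - z j| < 11 / 10 := by
    rw [PiLp.norm_eq_of_L1] at h1
    exact h1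
  obtain ⟨i, hi⟩ := exists_coord _ hFz
  have hFi : (F z).1 i = ∑ j, z j * (v j).1 i := by
    rw [hsum]
    simp
  obtain ⟨s, hs, hs1⟩ : ∃ s : ℝ, (s = 1 ∨ s = -1) ∧ s * (F z).1 i = 1 := by
    rcases abs_eq (zero_le_one' ℝ) |>.1 hi with h | h
    · exact ⟨1, Or.inl rfl, by rw [h, one_mul]⟩
    · exact ⟨-1, Or.inr rfl, by rw [h]; norm_num⟩
  have habs : ∀ j, z j * (s * (v j).1 i) ≤ |z j| := by
    intro j
    refine (le_abs_self _).trans ?_
    rw [abs_mul, abs_mul]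
    have : |s| = 1 := by
      rcases hs with h | h <;> rw [h] <;> simp
    rw [this, one_mul]
    calc |z j| * |(v j).1 i| ≤ |z j| * 1 :=
          mul_le_mul_of_nonneg_left (hv j i) (abs_nonneg _)
      _ = |z j| := mul_one _
  have hzero : ∑ j, (|z j| - z j * (s * (v j).1 i)) = 0 := by
    rw [Finset.sum_sub_distrib, hzs]
    rw [hFi, Finset.mul_sum] at hs1
    rw [← hs1, sub_eq_zero]
    exact Finset.sum_congr rfl fun j _ => by ring
  have hkey : ∀ j, 0 < z j → s * (v j).1 i = 1 := by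
    intro j hj
    have h3 := (Finset.sum_eq_zero_iff_of_nonneg
      (fun j _ => sub_nonneg.2 (habs j))).1 hzero j (Finset.mem_univ j)
    rw [abs_of_pos hj] at h3
    have h4 : z j * (s * (v j).1 i) = z j * 1 := by linarith
    exact mul_left_cancel₀ hj.ne' h4
  have ht : ∀ j, z j ≤ 0 → |z j| = - z j ∧ |1 / 5 - z j| = 1 / 5 - z j := by
    intro j hj
    exact ⟨abs_of_nonpos hj, abs_of_nonneg (by linarith)⟩
  have hp : ∀ j, |z j| - 1 / 5 ≤ |1 / 5 - z j| := by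
    intro j
    have h5 := abs_sub_abs_le_abs_sub (z j) (1 / 5)
    rw [abs_sub_comm, abs_of_pos (by norm_num : (0 : ℝ) < 1 / 5)] at h5
    exact h5
  -- three indices with `z j ≤ 0` give a contradiction
  have hthree : ∀ a b c : Fin 5, a ≠ b → a ≠ c → b ≠ c → z a ≤ 0 → z b ≤ 0 → z c ≤ 0 →
      False := by
    intro a b c hab hac hbc ha hb hc
    have h6 : ∑ j, (|1 / 5 - z j| - (|z j| - 1 / 5)) < 11 / 10 := by
      rw [Finset.sum_sub_distrib, Finset.sum_sub_distrib, hzs]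
      simp only [Finset.sum_const, Finset.card_univ, Fintype.card_fin]
      rw [nsmul_eq_mul]
      push_cast
      linarith
    have h7 : ∑ j ∈ ({a, b, c} : Finset (Fin 5)), (|1 / 5 - z j| - (|z j| - 1 / 5)) ≤
        ∑ j, (|1 / 5 - z j| - (|z j| - 1 / 5)) :=
      Finset.sum_le_sum_of_subset_of_nonneg (Finset.subset_univ _)
        (fun j _ _ => sub_nonneg.2 (hp j))
    rw [Finset.sum_insert (by simp [hab, hac]), Finset.sum_insert (by simp [hbc]),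
      Finset.sum_singleton, (ht a ha).1, (ht a ha).2, (ht b hb).1, (ht b hb).2,
      (ht c hc).1, (ht c hc).2] at h7
    linarith
  have htv : ∀ j : Fin 5, (tv j).1 0 = (![1, 7/10, -(7/10), -1, 0] : Fin 5 → ℝ) j ∧
      (tv j).1 1 = (![0, 7/10, 7/10, 0, -1] : Fin 5 → ℝ) j ∧
      7 * (tv j).1 2 = 5 * ((tv j).1 0 + (tv j).1 1) ∧
      7 * (tv j).1 3 = 5 * ((tv j).1 0 - (tv j).1 1) := by
    intro j
    refine ⟨?_, ?_, (tv j).2.1, (tv j).2.2⟩
    · fin_cases j <;> simp [tv, pt0]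
    · fin_cases j <;> simp [tv, pt1]
  have hbad : ∀ j, s * (v j).1 i = 1 →
      ((s = 1 ∧ i = 0) → j ≠ 2 ∧ j ≠ 3 ∧ j ≠ 4) ∧
      ((s = -1 ∧ i = 0) → j ≠ 0 ∧ j ≠ 1 ∧ j ≠ 4) ∧
      ((s = 1 ∧ i = 1) → j ≠ 0 ∧ j ≠ 3 ∧ j ≠ 4) ∧
      ((s = -1 ∧ i = 1) → j ≠ 0 ∧ j ≠ 1 ∧ j ≠ 2) ∧
      ((s = 1 ∧ i = 2) → j ≠ 2 ∧ j ≠ 3 ∧ j ≠ 4) ∧
      ((s = -1 ∧ i = 2) → j ≠ 0 ∧ j ≠ 1 ∧ j ≠ 2) ∧
      ((s = 1 ∧ i = 3) → j ≠ 1 ∧ j ≠ 2 ∧ j ≠ 3) ∧
      ((s = -1 ∧ i = 3) → j ≠ 0 ∧ j ≠ 1 ∧ j ≠ 4) := by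
    intro j hj
    obtain ⟨t0, t1, t2, t3⟩ := htv j
    obtain ⟨r2, r3⟩ := hrel j
    have d0 := abs_lt.1 (hd j 0)
    have d1 := abs_lt.1 (hd j 1)
    have d2 := abs_lt.1 (hd j 2)
    have d3 := abs_lt.1 (hd j 3)
    have v0 := abs_le.1 (hv j 0)
    have v1 := abs_le.1 (hv j 1)
    have v2 := abs_le.1 (hv j 2)
    have v3 := abs_le.1 (hv j 3)
    refine ⟨?_, ?_, ?_, ?_, ?_, ?_, ?_, ?_⟩ <;>
    · rintro ⟨rfl, rfl⟩
      refine ⟨?_, ?_, ?_⟩ <;>
      · rintro rfl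
        simp at t0 t1
        linarith
  have hz0 : ∀ j, ¬ (s * (v j).1 i = 1) → z j ≤ 0 := by
    intro j hj
    by_contra hc
    exact hj (hkey j (not_le.1 hc))
  rcases hs with hs | hs
  · fin_cases i
    · refine hthree 2 3 4 (by decide) (by decide) (by decide) (hz0 _ ?_) (hz0 _ ?_)
        (hz0 _ ?_)
      · intro hc; exact ((hbad _ hc).1 ⟨hs, rfl⟩).1 rfl
      · intro hc; exact ((hbad _ hc).1 ⟨hs, rfl⟩).2.1 rfl
      · intro hc; exact ((hbad _ hc).1 ⟨hs, rfl⟩).2.2 rfl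
    · refine hthree 0 3 4 (by decide) (by decide) (by decide) (hz0 _ ?_) (hz0 _ ?_)
        (hz0 _ ?_)
      · intro hc; exact ((hbad _ hc).2.2.1 ⟨hs, rfl⟩).1 rfl
      · intro hc; exact ((hbad _ hc).2.2.1 ⟨hs, rfl⟩).2.1 rfl
      · intro hc; exact ((hbad _ hc).2.2.1 ⟨hs, rfl⟩).2.2 rfl
    · refine hthree 2 3 4 (by decide) (by decide) (by decide) (hz0 _ ?_) (hz0 _ ?_)
        (hz0 _ ?_)
      · intro hc; exact ((hbad _ hc).2.2.2.2.1 ⟨hs, rfl⟩).1 rfl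
      · intro hc; exact ((hbad _ hc).2.2.2.2.1 ⟨hs, rfl⟩).2.1 rfl
      · intro hc; exact ((hbad _ hc).2.2.2.2.1 ⟨hs, rfl⟩).2.2 rfl
    · refine hthree 1 2 3 (by decide) (by decide) (by decide) (hz0 _ ?_) (hz0 _ ?_)
        (hz0 _ ?_)
      · intro hc; exact ((hbad _ hc).2.2.2.2.2.2.1 ⟨hs, rfl⟩).1 rfl
      · intro hc; exact ((hbad _ hc).2.2.2.2.2.2.1 ⟨hs, rfl⟩).2.1 rfl
      · intro hc; exact ((hbad _ hc).2.2.2.2.2.2.1 ⟨hs, rfl⟩).2.2 rfl
  · fin_cases i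
    · refine hthree 0 1 4 (by decide) (by decide) (by decide) (hz0 _ ?_) (hz0 _ ?_)
        (hz0 _ ?_)
      · intro hc; exact ((hbad _ hc).2.1 ⟨hs, rfl⟩).1 rfl
      · intro hc; exact ((hbad _ hc).2.1 ⟨hs, rfl⟩).2.1 rfl
      · intro hc; exact ((hbad _ hc).2.1 ⟨hs, rfl⟩).2.2 rfl
    · refine hthree 0 1 2 (by decide) (by decide) (by decide) (hz0 _ ?_) (hz0 _ ?_)
        (hz0 _ ?_)
      · intro hc; exact ((hbad _ hc).2.2.2.1 ⟨hs, rfl⟩).1 rfl
      · intro hc; exact ((hbad _ hc).2.2.2.1 ⟨hs, rfl⟩).2.1 rfl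
      · intro hc; exact ((hbad _ hc).2.2.2.1 ⟨hs, rfl⟩).2.2 rfl
    · refine hthree 0 1 2 (by decide) (by decide) (by decide) (hz0 _ ?_) (hz0 _ ?_)
        (hz0 _ ?_)
      · intro hc; exact ((hbad _ hc).2.2.2.2.2.1 ⟨hs, rfl⟩).1 rfl
      · intro hc; exact ((hbad _ hc).2.2.2.2.2.1 ⟨hs, rfl⟩).2.1 rfl
      · intro hc; exact ((hbad _ hc).2.2.2.2.2.1 ⟨hs, rfl⟩).2.2 rfl
    · refine hthree 0 1 4 (by decide) (by decide) (by decide) (hz0 _ ?_) (hz0 _ ?_)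
        (hz0 _ ?_)
      · intro hc; exact ((hbad _ hc).2.2.2.2.2.2.2 ⟨hs, rfl⟩).1 rfl
      · intro hc; exact ((hbad _ hc).2.2.2.2.2.2.2 ⟨hs, rfl⟩).2.1 rfl
      · intro hc; exact ((hbad _ hc).2.2.2.2.2.2.2 ⟨hs, rfl⟩).2.2 rfl

lemma modulus_ge {ε : ℝ} (hε : 23 / 25 < ε) :
    ENNReal.ofReal (11 / 10) ≤ sphericalModulus L15 oct ε := by
  unfold sphericalModulus
  refine le_iSup₂_of_le (x0, T) (mem_near hε) ?_
  refine le_iInf₂ fun q hq => ?_
  exact ENNReal.ofReal_le_ofReal (main_bound q.1 q.2 hq.1 hq.2.1 hq.2.2)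

lemma attaining_nonempty : (attainingPairs L15 oct).Nonempty := by
  refine ⟨(PiLp.single 1 0 1, T), ?_, norm_T, ?_⟩
  · show ‖(PiLp.single 1 0 1 : L15)‖ = 1
    rw [PiLp.norm_single, norm_one]
  · show ‖T (PiLp.single 1 0 1)‖ = 1
    rw [T_single]
    exact norm_yv 0

/-- The spherical Bishop-Phelps-Bollobas modulus of a pair `(X, Y)` with `β(Y) ≤ ρ` may be
larger than one: the proposed bound `min {√(2ε) √((1+ρ)/(1-ρ)), 1}` is false. -/
theorem result :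
    (¬ ∀ ρ : ℝ, 0 ≤ ρ → ρ < 1 →
      ∀ (X Y : Type) [NormedAddCommGroup X] [NormedSpace ℝ X] [CompleteSpace X]
        [NormedAddCommGroup Y] [NormedSpace ℝ Y] [CompleteSpace Y],
        PropertyBeta Y ρ → ∀ ε : ℝ, 0 < ε → ε < 1 →
          sphericalModulus X Y ε ≤
            ENNReal.ofReal (min (√(2 * ε) * √((1 + ρ) / (1 - ρ))) 1)) ∧
    (∃ (Y : Type) (_ : NormedAddCommGroup Y) (_ : NormedSpace ℝ Y) (_ : CompleteSpace Y),
        FiniteDimensional ℝ Y ∧ PropertyBeta Y (5 / 7) ∧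
        (attainingPairs (PiLp 1 (fun _ : Fin 5 => ℝ)) Y).Nonempty ∧
        ∀ ε : ℝ, 23 / 25 < ε →
          ENNReal.ofReal (11 / 10) ≤
            sphericalModulus (PiLp 1 (fun _ : Fin 5 => ℝ)) Y ε) := by
  constructor
  · intro h
    have h1 := h (5 / 7) (by norm_num) (by norm_num) L15 oct beta_oct (24 / 25)
      (by norm_num) (by norm_num)
    have h2 := (modulus_ge (ε := 24 / 25) (by norm_num)).trans h1
    rw [ENNReal.ofReal_le_ofReal_iff (le_min (by positivity) zero_le_one)] at h2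
    have h3 := h2.trans (min_le_right _ _)
    norm_num at h3
  · exact ⟨oct, inferInstance, inferInstance, inferInstance, inferInstance, beta_oct,
      attaining_nonempty, fun ε hε => modulus_ge hε⟩

end Pool.Agent.Results.MP_c24244_an.OctagonCounterexample
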